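import Pool.Agent.Q31.MG.Ex

/-!
# Densely locally minimal groups which are not totally disconnected may contain copies of `ℤ_p`

The question (under the Hilbert-Smith conjecture (HS)): let `G` be a locally compact, densely locally
minimal group which is not totally disconnected; is each closed abelian subgroup of `G` a Lie group,
so that `G` contains no copy of `ℤ_p`? The answer is NO, for every prime `p`. The counterexample does
not depend on (HS).

(1) Every Hausdorff topological group which has a compact neighbourhood of `1` without nontrivial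
normal subgroups is densely locally minimal. (Let `H` be a dense subgroup, `σ` a coarser group topology
on `H` such that `W ∩ H` is a `σ`-neighbourhood of `1`. The intersection of the closures in `G` of the
`σ`-neighbourhoods of `1` is a normal subgroup of `G` inside the compact set `W`, hence trivial, and by
compactness each neighbourhood of `1` in `G` contains a `σ`-neighbourhood.)

(2) The group `G = ℝ × (ℚ_p ⋊ ℤ)`, where `1 ∈ ℤ` acts on `ℚ_p` as multiplication by `p`, is locally
compact, not totally disconnected and has a compact neighbourhood of `1` without nontrivial normal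
subgroups; and `{0} × ℤ_p × {0}` is a closed abelian subgroup isomorphic to `ℤ_p`.
-/

set_option autoImplicit false

open Topology Set

namespace Pool.Agent.Results.MP_6af4f0_al.CounterexampleWithZp

/-- `G` is locally minimal: some neighbourhood `V` of the identity has the property that every
Hausdorff group topology `σ` coarser than (or equal to) the given topology for which `V` is a
neighbourhood of the identity (in particular every such `σ` with `V ∈ σ`) is equal to the given
topology. -/
def LocallyMinimal (G : Type) [Group G] [τ : TopologicalSpace G] : Prop :=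
  ∃ V ∈ 𝓝 (1 : G), ∀ σ : TopologicalSpace G, @IsTopologicalGroup G σ _ → @T2Space G σ → τ ≤ σ →
    V ∈ @nhds G σ 1 → σ = τ

/-- Every dense subgroup (with the subspace topology) is locally minimal. -/
def DenselyLocallyMinimal (G : Type) [Group G] [TopologicalSpace G] : Prop :=
  ∀ H : Subgroup G, Dense (H : Set G) → LocallyMinimal H

/-- `A` is a (real, finite-dimensional) Lie group for its topology: it has the structure of a
smooth manifold, modelled on some `ℝ ^ m`, for which it is a Lie group. -/
def IsLie (A : Type) [Group A] [TopologicalSpace A] : Prop :=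
  ∃ (m : ℕ) (_ : ChartedSpace (EuclideanSpace ℝ (Fin m)) A),
    LieGroup (modelWithCornersSelf ℝ (EuclideanSpace ℝ (Fin m))) ((⊤ : ℕ∞) : WithTop ℕ∞) A

/-- A totally disconnected Lie group is discrete. -/
lemma discrete_of_lie {A : Type} [Group A] [TopologicalSpace A] [TotallyDisconnectedSpace A]
    (h : IsLie A) : DiscreteTopology A := by
  obtain ⟨m, i, -⟩ := h
  have : LocallyConnectedSpace A :=
    ChartedSpace.locallyConnectedSpace (EuclideanSpace ℝ (Fin m)) A
  refine discreteTopology_iff_forall_isOpen.2 fun s => ?_
  rw [← biUnion_of_singleton s]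
  refine isOpen_biUnion fun x _ => ?_
  have h1 : connectedComponent x = {x} :=
    totallyDisconnectedSpace_iff_connectedComponent_singleton.1 inferInstance x
  rw [← h1]
  exact isOpen_connectedComponent

/-- **Answer to Q1 (no).** -/
theorem result :
    (∀ (G : Type) [Group G] [TopologicalSpace G] [IsTopologicalGroup G] [T2Space G] (W : Set G),
      IsCompact W → W ∈ 𝓝 (1 : G) →
      (∀ N : Subgroup G, N.Normal → (N : Set G) ⊆ W → N = ⊥) → DenselyLocallyMinimal G) ∧
    ∀ (p : ℕ) [Fact p.Prime], ∃ (G : Type) (_ : Group G) (_ : TopologicalSpace G),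
      IsTopologicalGroup G ∧ T2Space G ∧ LocallyCompactSpace G ∧ DenselyLocallyMinimal G ∧
      ¬ TotallyDisconnectedSpace G ∧
      ∃ A : Subgroup G, IsClosed (A : Set G) ∧ (∀ a ∈ A, ∀ b ∈ A, a * b = b * a) ∧
        Nonempty (A ≃ₜ* Multiplicative ℤ_[p]) ∧ ¬ IsLie A := by
  have h1 : ∀ (G : Type) [Group G] [TopologicalSpace G] [IsTopologicalGroup G] [T2Space G]
      (W : Set G), IsCompact W → W ∈ 𝓝 (1 : G) →
      (∀ N : Subgroup G, N.Normal → (N : Set G) ⊆ W → N = ⊥) → DenselyLocallyMinimal G := by
    intro G _ _ _ _ W hWc hW hN H hH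
    refine ⟨Subtype.val ⁻¹' W, ?_, fun σ hσ _ hle hV =>
      Pool.Agent.Q31.MG.dense_min hWc hN H hH σ hσ hle hV⟩
    exact continuous_subtype_val.continuousAt.preimage_mem_nhds hW
  refine ⟨h1, fun p _ => ⟨Pool.Agent.Q31.MG.GG p, inferInstance, inferInstance, inferInstance,
    inferInstance, inferInstance, ?_, Pool.Agent.Q31.MG.not_td, Pool.Agent.Q31.MG.AA p,
    Pool.Agent.Q31.MG.AA_closed, fun a ha b hb => Pool.Agent.Q31.MG.AA_comm a b ha hb,
    ⟨Pool.Agent.Q31.MG.AAiso⟩, ?_⟩⟩
  · exact h1 _ _ Pool.Agent.Q31.MG.WW_compact Pool.Agent.Q31.MG.WW_nhds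
      Pool.Agent.Q31.MG.WW_small
  · intro h
    have e : Pool.Agent.Q31.MG.AA p ≃ₜ Multiplicative ℤ_[p] :=
      (Pool.Agent.Q31.MG.AAiso (p := p)).toHomeomorph
    have : TotallyDisconnectedSpace (Pool.Agent.Q31.MG.AA p) :=
      Homeomorph.totallyDisconnectedSpace e.symm
    have : DiscreteTopology (Pool.Agent.Q31.MG.AA p) := discrete_of_lie h
    have : DiscreteTopology (Multiplicative ℤ_[p]) := e.symm.isEmbedding.discreteTopology
    have : Finite (Multiplicative ℤ_[p]) := finite_of_compact_of_discrete
    exact not_finite (Multiplicative ℤ_[p])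

end Pool.Agent.Results.MP_6af4f0_al.CounterexampleWithZp
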